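import Pool.Agent.H9.US.Good

/-!
# Theorem U2: almost all signatures of large multiplicity

`K` a CM field of degree `2 g`; a signature of multiplicity `m` is a function `r` on the embeddings with `r x + r (conj x) = m`; there are
`(m + 1) ^ g` of them.  The translates of `2 r - m` span the odd functions if a determinant `P` (a polynomial of degree `g` in the values of
`2 r - m` at `g` embeddings) does not vanish, and the lemma of Schwartz and Zippel bounds the number of its zeros.
-/

set_option autoImplicit false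

open NumberField Module MvPolynomial

namespace Pool.Agent.H68.U2

open Pool.Agent.H68.HT Pool.Agent.H9.US

set_option linter.unusedSectionVars false

variable {K : Type} [Field K] [NumberField K] [IsCMField K]

/-- representatives of the pairs of conjugate embeddings -/
structure Reps (K : Type) [Field K] [NumberField K] (g : ℕ) where
  /-- the representatives -/
  e : Fin g → (K →+* ℂ)
  inj : Function.Injective e
  ne : ∀ i j, e i ≠ cb (e j)
  surj : ∀ x, (∃ i, x = e i) ∨ ∃ i, x = cb (e i)

theorem exists_reps (g : ℕ) (hK : finrank ℚ K = 2 * g) : Nonempty (Reps K g) := by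
  classical
  obtain ⟨S, hS⟩ := half K (fun s => cm_real s)
  have hcc : ∀ s : K →+* ℂ, cb (cb s) = s := cb_cb
  have hcard : Fintype.card (K →+* ℂ) = 2 * g := by
    rw [NumberField.Embeddings.card, hK]
  have h1 : S.card = g := by
    have h2 : (Finset.univ \ S).card = S.card := by
      refine Finset.card_bij (fun s _ => cb s) ?_ ?_ ?_
      · intro s hs
        rw [Finset.mem_sdiff] at hs
        by_contra h3
        exact hs.2 ((hS s).2 h3)
      · intro s _ t _ h3
        have h4 := congrArg cb h3
        rwa [hcc, hcc] at h4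
      · intro s hs
        refine ⟨cb s, ?_, hcc s⟩
        rw [Finset.mem_sdiff]
        exact ⟨Finset.mem_univ _, (hS s).1 hs⟩
    have h3 := Finset.card_sdiff_add_card_eq_card (Finset.subset_univ S)
    rw [h2, Finset.card_univ, hcard] at h3
    omega
  let q := (Finset.equivFinOfCardEq h1).symm
  refine ⟨⟨fun i => (q i : K →+* ℂ), fun i j h => q.injective (Subtype.ext h), fun i j h => ?_, fun x => ?_⟩⟩
  · have h2 := (hS _).1 (q j).2
    apply h2
    have h3 : cb (q j : K →+* ℂ) = (q i : K →+* ℂ) := h.symm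
    rw [h3]
    exact (q i).2
  · by_cases hx : x ∈ S
    · left
      exact ⟨q.symm ⟨x, hx⟩, by rw [Equiv.apply_symm_apply]⟩
    · right
      have h2 : cb x ∈ S := by
        by_contra h3
        exact hx ((hS x).2 h3)
      refine ⟨q.symm ⟨cb x, h2⟩, ?_⟩
      rw [Equiv.apply_symm_apply]
      exact (hcc x).symm

variable {g : ℕ} (R : Reps K g)

open Classical in
/-- the value of an odd function at `x` as a linear form in its values at the representatives -/
noncomputable def pv (x : K →+* ℂ) : MvPolynomial (Fin g) ℚ :=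
  ∑ i, (((if x = R.e i then 1 else 0) - (if x = cb (R.e i) then 1 else 0) : ℚ) • X i)

theorem pv_degree (x : K →+* ℂ) : (pv R x).totalDegree ≤ 1 := by
  unfold pv
  refine totalDegree_finsetSum_le fun i _ => ?_
  refine (totalDegree_smul_le _ _).trans ?_
  rw [totalDegree_X]

open Classical in
theorem eval_pv (y : Fin g → ℚ) (x : K →+* ℂ) :
    eval y (pv R x) = ∑ i, ((if x = R.e i then 1 else 0) - (if x = cb (R.e i) then 1 else 0) : ℚ) * y i := by
  unfold pv
  rw [map_sum]
  refine Finset.sum_congr rfl fun i _ => ?_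
  rw [smul_eval, eval_X]

theorem eval_odd (f : (K →+* ℂ) → ℚ) (hf : ∀ x, f (cb x) = - f x) (x : K →+* ℂ) :
    eval (fun i => f (R.e i)) (pv R x) = f x := by
  classical
  rw [eval_pv]
  rcases R.surj x with ⟨i, rfl⟩ | ⟨i, rfl⟩
  · rw [Finset.sum_eq_single i]
    · rw [if_pos rfl, if_neg (R.ne i i)]
      ring
    · intro j _ hj
      rw [if_neg (fun h => hj (R.inj h).symm), if_neg (R.ne i j)]
      ring
    · intro h
      exact absurd (Finset.mem_univ i) h
  · rw [Finset.sum_eq_single i]
    · rw [if_pos rfl, if_neg (fun h => R.ne i i h.symm), hf]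
      ring
    · intro j _ hj
      rw [if_neg (fun h => R.ne j i h.symm), if_neg]
      · ring
      · intro h
        have h2 := congrArg cb h
        rw [cb_cb, cb_cb] at h2
        exact hj (R.inj h2).symm
    · intro h
      exact absurd (Finset.mem_univ i) h

/-- automorphisms which map all representatives to the first one -/
theorem exists_tau (i0 : Fin g) : ∃ τ : Fin g → (ℂ ≃+* ℂ), ∀ i, cj (τ i) (R.e i) = R.e i0 := by
  choose τ hτ using fun i => Pool.Agent.H52.MF.exists_aut_comp (R.e i) (R.e i0)
  exact ⟨τ, hτ⟩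

/-- the matrix of the translates -/
noncomputable def mat (τ : Fin g → (ℂ ≃+* ℂ)) : Matrix (Fin g) (Fin g) (MvPolynomial (Fin g) ℚ) :=
  Matrix.of fun i j => pv R (cj (τ i) (R.e j))

theorem det_degree (τ : Fin g → (ℂ ≃+* ℂ)) : (mat R τ).det.totalDegree ≤ g := by
  rw [Matrix.det_apply]
  refine totalDegree_finsetSum_le fun σ _ => ?_
  refine (totalDegree_smul_le _ _).trans ?_
  refine (totalDegree_finsetProd _ _).trans ?_
  refine (Finset.sum_le_card_nsmul _ _ 1 fun i _ => pv_degree R _).trans ?_
  simp

theorem eval_det (τ : Fin g → (ℂ ≃+* ℂ)) (y : Fin g → ℚ) :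
    eval y (mat R τ).det = (Matrix.of fun i j => eval y (pv R (cj (τ i) (R.e j)))).det := by
  rw [RingHom.map_det]
  rfl

theorem cj_inj (ρ : ℂ ≃+* ℂ) {s t : K →+* ℂ} (h : cj ρ s = cj ρ t) : s = t := by
  ext x
  have h1 := RingHom.congr_fun h x
  exact ρ.injective h1

theorem det_ne (i0 : Fin g) (τ : Fin g → (ℂ ≃+* ℂ)) (hτ : ∀ i, cj (τ i) (R.e i) = R.e i0) :
    (mat R τ).det ≠ 0 := by
  classical
  intro h
  have h1 := congrArg (eval (Pi.single i0 1 : Fin g → ℚ)) h
  rw [map_zero, eval_det] at h1
  have h2 : (Matrix.of fun i j => eval (Pi.single i0 1 : Fin g → ℚ) (pv R (cj (τ i) (R.e j)))) = 1 := by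
    ext i j
    rw [Matrix.of_apply, eval_pv, Finset.sum_eq_single i0]
    · rw [Pi.single_eq_same, mul_one]
      have h3 : ¬ cj (τ i) (R.e j) = cb (R.e i0) := by
        intro h3
        rw [← hτ i, cm_conj] at h3
        exact R.ne j i (cj_inj _ h3)
      rw [if_neg h3]
      by_cases hij : i = j
      · subst hij
        rw [if_pos (hτ i), Matrix.one_apply_eq]
        ring
      · rw [if_neg, Matrix.one_apply_ne hij]
        · ring
        · intro h4
          rw [← hτ i] at h4
          exact hij (R.inj (cj_inj _ h4)).symm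
    · intro k _ hk
      rw [Pi.single_eq_of_ne hk, mul_zero]
    · intro h3
      exact absurd (Finset.mem_univ i0) h3
  rw [h2, Matrix.det_one] at h1
  exact one_ne_zero h1

/-- the sum of an even function -/
theorem sum_even (F : (K →+* ℂ) → ℚ) (hF : ∀ x, F (cb x) = F x) : ∑ x, F x = 2 * ∑ i, F (R.e i) := by
  classical
  let q : Fin g ⊕ Fin g → (K →+* ℂ) := Sum.elim R.e (fun i => cb (R.e i))
  have hq : Function.Bijective q := by
    constructor
    · rintro (i | i) (j | j) h
      · exact congrArg Sum.inl (R.inj h)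
      · exact absurd h (R.ne i j)
      · exact absurd h.symm (R.ne j i)
      · have h2 := congrArg cb h
        change cb (cb (R.e i)) = cb (cb (R.e j)) at h2
        rw [cb_cb, cb_cb] at h2
        exact congrArg Sum.inr (R.inj h2)
    · intro x
      rcases R.surj x with ⟨i, h⟩ | ⟨i, h⟩
      · exact ⟨Sum.inl i, h.symm⟩
      · exact ⟨Sum.inr i, h.symm⟩
  rw [← Equiv.sum_comp (Equiv.ofBijective q hq), Fintype.sum_sum_type]
  have h1 : ∀ i, F ((Equiv.ofBijective q hq) (Sum.inl i)) = F (R.e i) := fun i => rfl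
  have h2 : ∀ i, F ((Equiv.ofBijective q hq) (Sum.inr i)) = F (R.e i) := fun i => hF (R.e i)
  rw [Finset.sum_congr rfl fun i _ => h1 i, Finset.sum_congr rfl fun i _ => h2 i]
  ring

/-- if the determinant does not vanish at `f` then `f` spans -/
theorem spans_of_det (τ : Fin g → (ℂ ≃+* ℂ)) (f : (K →+* ℂ) → ℤ) (hf : ∀ x, f (cb x) = - f x)
    (hdet : eval (fun i => (f (R.e i) : ℚ)) (mat R τ).det ≠ 0) : Pool.Agent.H64.CO.Spans f := by
  classical
  intro c hc horth
  have hc' : ∀ x, c (cb x) = - c x := fun x => hc x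
  have hfq : ∀ x, ((f (cb x) : ℤ) : ℚ) = - (f x : ℚ) := fun x => by rw [hf]; push_cast; ring
  have h1 : (Matrix.of fun i j => eval (fun i => (f (R.e i) : ℚ)) (pv R (cj (τ i) (R.e j)))).mulVec
      (fun j => c (R.e j)) = 0 := by
    ext i
    have h2 := horth (τ i)
    rw [sum_even R] at h2
    · have h3 : ∑ j, c (R.e j) * (f ((τ i : ℂ →+* ℂ).comp (R.e j)) : ℚ) = 0 := by linarith
      rw [Pi.zero_apply, ← h3]
      rw [Matrix.mulVec_apply]
      refine Finset.sum_congr rfl fun j _ => ?_
      have h4 := eval_odd R (fun x => (f x : ℚ)) hfq (cj (τ i) (R.e j))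
      rw [mul_comm (c (R.e j))]
      exact congrArg (fun z : ℚ => z * c (R.e j)) h4
    · intro x
      show c (cb x) * (f (cj (τ i) (cb x)) : ℚ) = c x * (f (cj (τ i) x) : ℚ)
      rw [← cm_conj, hc', hfq]
      ring
  rw [eval_det] at hdet
  have h2 := Matrix.eq_zero_of_mulVec_eq_zero hdet h1
  funext x
  rcases R.surj x with ⟨i, rfl⟩ | ⟨i, rfl⟩
  · exact congrFun h2 i
  · rw [hc']
    have h3 : c (R.e i) = 0 := congrFun h2 i
    rw [h3, neg_zero]
    rfl

end Pool.Agent.H68.U2
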