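import Pool.Agent.H68.U2.Gen

/-!
# Theorem U2: the count
-/

set_option autoImplicit false
set_option linter.unusedSectionVars false

open NumberField Module MvPolynomial

namespace Pool.Agent.H68.U2

open Pool.Agent.H68.HT Pool.Agent.H9.US

/-- All signatures of multiplicity `m`. -/
def Sig (K : Type) [Field K] [NumberField K] (m : ℕ) : Set ((K →+* ℂ) → ℕ) :=
  {r | ∀ x, r x + r (ComplexEmbedding.conjugate x) = m}

variable {K : Type} [Field K] [NumberField K] [IsCMField K] {g : ℕ} (R : Reps K g)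

/-- the polynomial whose zeros contain all bad signatures -/
noncomputable def pol (m : ℕ) (τ : Fin g → (ℂ ≃+* ℂ)) : MvPolynomial (Fin g) ℚ :=
  (mat R τ).det * ∏ i, ((X i - C (m : ℚ)) * (X i - C (-(m : ℚ))))

theorem pol_degree (m : ℕ) (τ : Fin g → (ℂ ≃+* ℂ)) : (pol R m τ).totalDegree ≤ 3 * g := by
  unfold pol
  refine (totalDegree_mul _ _).trans ?_
  have h1 : ∀ (i : Fin g) (a : ℚ), (X i - C a : MvPolynomial (Fin g) ℚ).totalDegree ≤ 1 := by
    intro i a
    refine (totalDegree_sub_C_le _ _).trans ?_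
    rw [totalDegree_X]
  have h2 : (∏ i : Fin g, ((X i - C (m : ℚ)) * (X i - C (-(m : ℚ))) : MvPolynomial (Fin g) ℚ)).totalDegree ≤
      2 * g := by
    refine (totalDegree_finsetProd _ _).trans ?_
    refine (Finset.sum_le_card_nsmul _ _ 2 fun i _ => ?_).trans ?_
    · refine (totalDegree_mul _ _).trans ?_
      exact add_le_add (h1 _ _) (h1 _ _)
    · rw [Finset.card_univ, Fintype.card_fin, smul_eq_mul, mul_comm]
  have h3 := det_degree R τ
  omega

theorem pol_ne (m : ℕ) (i0 : Fin g) (τ : Fin g → (ℂ ≃+* ℂ)) (hτ : ∀ i, cj (τ i) (R.e i) = R.e i0) :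
    pol R m τ ≠ 0 := by
  unfold pol
  refine mul_ne_zero (det_ne R i0 τ hτ) (Finset.prod_ne_zero_iff.2 fun i _ => ?_)
  have h1 : ∀ a : ℚ, (X i - C a : MvPolynomial (Fin g) ℚ) ≠ 0 := by
    intro a h
    have h2 := congrArg (eval (fun _ => a + 1 : Fin g → ℚ)) h
    rw [map_zero, map_sub, eval_X, eval_C] at h2
    simp at h2
  exact mul_ne_zero (h1 _) (h1 _)

/-- the vector of a signature -/
def vec (m : ℕ) (r : (K →+* ℂ) → ℕ) : Fin g → ℚ := fun i => ((2 * (r (R.e i) : ℤ) - m : ℤ) : ℚ)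

theorem vec_inj (m : ℕ) {r r' : (K →+* ℂ) → ℕ} (hr : r ∈ Sig K m) (hr' : r' ∈ Sig K m)
    (h : vec R m r = vec R m r') : r = r' := by
  have h1 : ∀ i, r (R.e i) = r' (R.e i) := by
    intro i
    have h2 := congrFun h i
    unfold vec at h2
    have h3 : (2 * (r (R.e i) : ℤ) - m : ℤ) = 2 * (r' (R.e i) : ℤ) - m := by exact_mod_cast h2
    omega
  funext x
  rcases R.surj x with ⟨i, rfl⟩ | ⟨i, rfl⟩
  · exact h1 i
  · have h2 := hr (R.e i)
    have h3 := hr' (R.e i)
    have h4 := h1 i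
    change r (R.e i) + r (cb (R.e i)) = m at h2
    change r' (R.e i) + r' (cb (R.e i)) = m at h3
    omega

/-- the values -/
def vals (m : ℕ) : Finset ℚ := (Finset.range (m + 1)).image fun k : ℕ => ((2 * (k : ℤ) - m : ℤ) : ℚ)

theorem card_vals (m : ℕ) : (vals m).card = m + 1 := by
  unfold vals
  rw [Finset.card_image_of_injective, Finset.card_range]
  intro a b h
  have h0 : ((2 * (a : ℤ) - m : ℤ) : ℚ) = ((2 * (b : ℤ) - m : ℤ) : ℚ) := h
  have h1 : (2 * (a : ℤ) - m : ℤ) = 2 * (b : ℤ) - m := Int.cast_injective h0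
  omega

theorem vec_mem (m : ℕ) {r : (K →+* ℂ) → ℕ} (hr : r ∈ Sig K m) : vec R m r ∈ Fintype.piFinset fun _ => vals m := by
  rw [Fintype.mem_piFinset]
  intro i
  unfold vals vec
  rw [Finset.mem_image]
  refine ⟨r (R.e i), ?_, rfl⟩
  rw [Finset.mem_range]
  have h2 := hr (R.e i)
  omega

/-- a signature which is not a zero of the polynomial is good -/
theorem good_of_eval {m : ℕ} (hm : 1 ≤ m) {r : (K →+* ℂ) → ℕ} (hr : r ∈ Sig K m) (τ : Fin g → (ℂ ≃+* ℂ))
    (h : eval (vec R m r) (pol R m τ) ≠ 0) (hco : ∃ s, Nat.Coprime (r s) m) : Good K m r := by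
  unfold pol at h
  rw [map_mul, map_prod] at h
  have h1 := left_ne_zero_of_mul h
  have h2 := right_ne_zero_of_mul h
  rw [Finset.prod_ne_zero_iff] at h2
  have hodd : ∀ x, (2 * (r (cb x) : ℤ) - m : ℤ) = - (2 * (r x : ℤ) - m) := by
    intro x
    have h3 := hr x
    change r x + r (cb x) = m at h3
    omega
  have hS : Pool.Agent.H64.CO.Spans fun x => 2 * (r x : ℤ) - m := spans_of_det R τ _ hodd h1
  have hI : ∀ x, Pool.Agent.H64.CO.Indef m r x := by
    have h3 : ∀ i, Pool.Agent.H64.CO.Indef m r (R.e i) := by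
      intro i
      have h4 := h2 i (Finset.mem_univ i)
      rw [map_mul, map_sub, map_sub, eval_X, eval_C, eval_C] at h4
      have h5 := left_ne_zero_of_mul h4
      have h6 := right_ne_zero_of_mul h4
      have h7 := hr (R.e i)
      unfold vec at h5 h6
      constructor
      · by_contra h8
        apply h6
        have h9 : r (R.e i) = 0 := by omega
        rw [h9]
        push_cast
        ring
      · by_contra h8
        apply h5
        have h9 : r (R.e i) = m := by omega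
        rw [h9]
        push_cast
        ring
    intro x
    rcases R.surj x with ⟨i, rfl⟩ | ⟨i, rfl⟩
    · exact h3 i
    · have h4 := hr (R.e i)
      have h5 := h3 i
      change r (R.e i) + r (cb (R.e i)) = m at h4
      unfold Pool.Agent.H64.CO.Indef at h5 ⊢
      omega
  refine good_of hm hr ?_ (Or.inr (Pool.Agent.H64.CO.unl_of_spans m r hr hI hS)) hS
  intro x
  obtain ⟨s, hs⟩ := hco
  obtain ⟨ρ, hρ⟩ := Pool.Agent.H52.MF.exists_aut_comp x s
  refine ⟨ρ, ?_⟩
  have h3 : cj ρ x = s := hρ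
  rw [h3]
  exact hs

theorem coprime_of_prime {m : ℕ} (hm : m.Prime) {r : (K →+* ℂ) → ℕ} (i0 : Fin g) (τ : Fin g → (ℂ ≃+* ℂ))
    (hr : r ∈ Sig K m) (h : eval (vec R m r) (pol R m τ) ≠ 0) : ∃ s, Nat.Coprime (r s) m := by
  unfold pol at h
  rw [map_mul, map_prod] at h
  have h2 := right_ne_zero_of_mul h
  rw [Finset.prod_ne_zero_iff] at h2
  have h4 := h2 i0 (Finset.mem_univ i0)
  rw [map_mul, map_sub, map_sub, eval_X, eval_C, eval_C] at h4
  have h5 := left_ne_zero_of_mul h4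
  have h6 := right_ne_zero_of_mul h4
  have h7 := hr (R.e i0)
  unfold vec at h5 h6
  refine ⟨R.e i0, Nat.Coprime.symm ((Nat.Prime.coprime_iff_not_dvd hm).2 fun hd => ?_)⟩
  rcases Nat.eq_zero_or_pos (r (R.e i0)) with h8 | h8
  · apply h6
    rw [h8]
    push_cast
    ring
  · have h9 := Nat.le_of_dvd h8 hd
    have h10 : r (R.e i0) = m := by omega
    apply h5
    rw [h10]
    push_cast
    ring

/-- Schwartz and Zippel for a set of signatures -/
theorem count (m : ℕ) (τ : Fin g → (ℂ ≃+* ℂ)) (hne : pol R m τ ≠ 0) (B : Set ((K →+* ℂ) → ℕ))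
    (hB : ∀ r ∈ B, r ∈ Sig K m ∧ eval (vec R m r) (pol R m τ) = 0) :
    Nat.card B * (m + 1) ≤ 3 * g * (m + 1) ^ g := by
  classical
  obtain ⟨Z, hZ⟩ : ∃ Z, Z = (Fintype.piFinset fun _ : Fin g => vals m).filter fun f => eval f (pol R m τ) = 0 := ⟨_, rfl⟩
  have h1 : Nat.card B ≤ Z.card := by
    have h0 : Z.card = Nat.card (Z : Set (Fin g → ℚ)) := by simp
    rw [h0]
    refine Nat.card_le_card_of_injective (fun r : B => (⟨vec R m r.1, ?_⟩ : (Z : Set (Fin g → ℚ)))) ?_
    · rw [hZ, Finset.mem_coe, Finset.mem_filter]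
      exact ⟨vec_mem R m (hB r.1 r.2).1, (hB r.1 r.2).2⟩
    · intro r r' h
      exact Subtype.ext (vec_inj R m (hB r.1 r.2).1 (hB r'.1 r'.2).1 (congrArg Subtype.val h))
  have h2 := schwartz_zippel_totalDegree hne (vals m)
  rw [← hZ, card_vals] at h2
  have h3 : (0 : ℚ≥0) < ((m + 1 : ℕ) : ℚ≥0) := by positivity
  rw [div_le_div_iff₀ (pow_pos h3 _) h3] at h2
  have h4 : Z.card * (m + 1) ≤ (pol R m τ).totalDegree * (m + 1) ^ g := by exact_mod_cast h2
  calc Nat.card B * (m + 1) ≤ Z.card * (m + 1) := Nat.mul_le_mul_right _ h1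
    _ ≤ (pol R m τ).totalDegree * (m + 1) ^ g := h4
    _ ≤ 3 * g * (m + 1) ^ g := Nat.mul_le_mul_right _ (pol_degree R m τ)

theorem card_sig (hK : finrank ℚ K = 2 * g) (m : ℕ) : Nat.card (Sig K m) = (m + 1) ^ g := by
  classical
  obtain ⟨R⟩ := exists_reps (K := K) g hK
  have h1 : Nat.card (Fin g → Fin (m + 1)) = (m + 1) ^ g := by simp
  rw [← h1]
  refine Nat.card_congr (Equiv.ofBijective (fun r : Sig K m => fun i => (⟨r.1 (R.e i), ?_⟩ : Fin (m + 1))) ⟨?_, ?_⟩)
  · have h2 := r.2 (R.e i)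
    omega
  · intro r r' h
    refine Subtype.ext (vec_inj R m r.2 r'.2 ?_)
    funext i
    have h2 : r.1 (R.e i) = r'.1 (R.e i) := congrArg Fin.val (congrFun h i)
    unfold vec
    rw [h2]
  · intro y
    refine ⟨⟨fun x => if h : ∃ i, x = R.e i then (y h.choose : ℕ) else
      if h : ∃ i, x = cb (R.e i) then m - (y h.choose : ℕ) else 0, ?_⟩, ?_⟩
    · have hv1 : ∀ i, (fun x => if h : ∃ i, x = R.e i then (y h.choose : ℕ) else
          if h : ∃ i, x = cb (R.e i) then m - (y h.choose : ℕ) else 0) (R.e i) = (y i : ℕ) := by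
        intro i
        have h : ∃ j, R.e i = R.e j := ⟨i, rfl⟩
        show (if h : ∃ j, R.e i = R.e j then (y h.choose : ℕ) else _) = _
        rw [dif_pos h]
        have h2 := R.inj h.choose_spec
        rw [← h2]
      have hv2 : ∀ i, (fun x => if h : ∃ i, x = R.e i then (y h.choose : ℕ) else
          if h : ∃ i, x = cb (R.e i) then m - (y h.choose : ℕ) else 0) (cb (R.e i)) = m - (y i : ℕ) := by
        intro i
        have h0 : ¬ ∃ j, cb (R.e i) = R.e j := by
          rintro ⟨j, hj⟩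
          exact R.ne j i hj.symm
        have h : ∃ j, cb (R.e i) = cb (R.e j) := ⟨i, rfl⟩
        show (if h : ∃ j, cb (R.e i) = R.e j then (y h.choose : ℕ) else
          if h : ∃ j, cb (R.e i) = cb (R.e j) then m - (y h.choose : ℕ) else 0) = _
        rw [dif_neg h0, dif_pos h]
        have h2 := congrArg cb h.choose_spec
        rw [cb_cb, cb_cb] at h2
        have h3 := R.inj h2
        rw [← h3]
      intro x
      rcases R.surj x with ⟨i, rfl⟩ | ⟨i, rfl⟩
      · have h5 := (y i).2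
        have h6 : ComplexEmbedding.conjugate (R.e i) = cb (R.e i) := rfl
        rw [hv1, h6, hv2]
        omega
      · have h5 := (y i).2
        have h6 : ComplexEmbedding.conjugate (cb (R.e i)) = R.e i := cb_cb _
        rw [h6, hv1, hv2]
        omega
    · funext i
      refine Fin.ext ?_
      have h : ∃ j, R.e i = R.e j := ⟨i, rfl⟩
      show (if h : ∃ j, R.e i = R.e j then (y h.choose : ℕ) else _) = _
      rw [dif_pos h]
      have h2 := R.inj h.choose_spec
      rw [← h2]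

/-- Theorem U2. -/
theorem u2 (K : Type) [Field K] [NumberField K] [IsCMField K] (g m : ℕ) (hK : finrank ℚ K = 2 * g) (hm : 1 ≤ m) :
    Nat.card (Sig K m) = (m + 1) ^ g ∧
    Nat.card {r : (K →+* ℂ) → ℕ | r ∈ Sig K m ∧ (∃ s, Nat.Coprime (r s) m) ∧ ¬ Good K m r} * (m + 1) ≤
      3 * g * (m + 1) ^ g ∧
    (m.Prime → Nat.card {r : (K →+* ℂ) → ℕ | r ∈ Sig K m ∧ ¬ Good K m r} * (m + 1) ≤ 3 * g * (m + 1) ^ g) := by
  obtain ⟨R⟩ := exists_reps (K := K) g hK
  have hg : 1 ≤ g := by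
    have : 0 < finrank ℚ K := finrank_pos
    omega
  obtain ⟨τ, hτ⟩ := exists_tau R ⟨0, hg⟩
  have hne := pol_ne R m ⟨0, hg⟩ τ hτ
  refine ⟨card_sig hK m, count R m τ hne _ ?_, fun hp => count R m τ hne _ ?_⟩
  · rintro r ⟨h1, h2, h3⟩
    refine ⟨h1, ?_⟩
    by_contra h4
    exact h3 (good_of_eval R hm h1 τ h4 h2)
  · rintro r ⟨h1, h3⟩
    refine ⟨h1, ?_⟩
    by_contra h4
    exact h3 (good_of_eval R hm h1 τ h4 (coprime_of_prime R hp ⟨0, hg⟩ τ h1 h4))

end Pool.Agent.H68.U2
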